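import Pool.Agent.Helper28.CQ.Stmts

set_option autoImplicit false

/-!
# Lamplighter groups: word norm facts (module LP)
-/

namespace CQ

open Relation

/-! ## `dI` -/

theorem h47_le_dI {m : ℕ} (x y : V m) (i : Fin m) : (x i - y i).natAbs ≤ dI x y :=
  dI_le.1 le_rfl i

theorem h47_dI_comm {m : ℕ} (x y : V m) : dI x y = dI y x := by
  have key : ∀ x y : V m, dI x y ≤ dI y x := by
    intro x y
    rw [dI_le]
    intro i
    have := h47_le_dI y x i
    omega
  exact le_antisymm (key x y) (key y x)

theorem h47_dI_tri {m : ℕ} (x y z : V m) : dI x z ≤ dI x y + dI y z := by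
  rw [dI_le]
  intro i
  have h1 := h47_le_dI x y i
  have h2 := h47_le_dI y z i
  omega

theorem h47_dI_self {m : ℕ} (x : V m) : dI x x = 0 := by
  have : dI x x ≤ 0 := by
    rw [dI_le]
    intro i
    simp
  omega

theorem h47_dI_add {m : ℕ} (x y z : V m) : dI (x + z) (y + z) = dI x y := by
  unfold dI
  congr 1
  ext i
  simp

theorem h47_dI_sub {m : ℕ} (x y : V m) : dI (x - y) 0 = dI x y := by
  unfold dI
  congr 1
  ext i
  simp

/-! ## word length -/

section wl
variable {G : Type*} [Group G] {S : Set G}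

theorem h47_wl_le {g : G} (l : List G) (h1 : ∀ x ∈ l, x ∈ S ∨ x⁻¹ ∈ S) (h2 : l.prod = g) :
    wl S g ≤ l.length := Nat.sInf_le ⟨l, rfl, h1, h2⟩

theorem h47_wl_spec (hS : Subgroup.closure S = ⊤) (g : G) :
    ∃ l : List G, l.length = wl S g ∧ (∀ x ∈ l, x ∈ S ∨ x⁻¹ ∈ S) ∧ l.prod = g := by
  have h1 : {n | ∃ l : List G, l.length = n ∧ (∀ x ∈ l, x ∈ S ∨ x⁻¹ ∈ S) ∧ l.prod = g}.Nonempty := by
    have hg : g ∈ Subgroup.closure S := by rw [hS]; trivial
    rw [← Subgroup.mem_toSubmonoid, Subgroup.closure_toSubmonoid] at hg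
    obtain ⟨l, hl, hp⟩ := Submonoid.exists_list_of_mem_closure hg
    exact ⟨l.length, l, rfl, fun x hx => (hl x hx).imp id (fun h => Set.mem_inv.1 h), hp⟩
  exact Nat.sInf_mem h1

theorem h47_wl_norm (hS : Subgroup.closure S = ⊤) : IsNorm (wl S) := by
  have hinv : ∀ g, wl S g⁻¹ ≤ wl S g := by
    intro g
    obtain ⟨l, h1, h2, h3⟩ := h47_wl_spec hS g
    rw [← h1, ← h3, List.prod_inv_reverse]
    refine (h47_wl_le _ ?_ rfl).trans (le_of_eq (by simp))
    intro x hx
    simp only [List.mem_reverse, List.mem_map] at hx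
    obtain ⟨y, hy, rfl⟩ := hx
    rcases h2 y hy with h | h
    · right; simpa using h
    · left; exact h
  refine ⟨?_, ?_, ?_⟩
  · intro g
    constructor
    · intro h
      obtain ⟨l, h1, h2, h3⟩ := h47_wl_spec hS g
      rw [h, List.length_eq_zero_iff] at h1
      rw [← h3, h1]
      rfl
    · rintro rfl
      have := h47_wl_le (S := S) (g := 1) [] (by simp) (by simp)
      simpa using this
  · intro g
    apply le_antisymm (hinv g)
    have := hinv g⁻¹
    rwa [inv_inv] at this
  · intro g h
    obtain ⟨l, h1, h2, h3⟩ := h47_wl_spec hS g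
    obtain ⟨l', h1', h2', h3'⟩ := h47_wl_spec hS h
    rw [← h1, ← h1']
    refine (h47_wl_le (l ++ l') ?_ ?_).trans (le_of_eq (by simp))
    · intro x hx
      rcases List.mem_append.1 hx with hx | hx
      · exact h2 x hx
      · exact h2' x hx
    · rw [List.prod_append, h3, h3']

end wl

/-! ## generators of the lamplighter group -/

section gen
variable {d k : ℕ}

@[simp] theorem h47_pt_lamp (p : V d) (r : ZMod k) (q : V d) : (L.pt p r).lamp q = 0 := rfl
@[simp] theorem h47_pt_pos (p : V d) (r : ZMod k) : (L.pt p r).pos = p := rfl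
@[simp] theorem h47_pt_rot (p : V d) (r : ZMod k) : (L.pt p r).rot = r := rfl
@[simp] theorem h47_tog_pos : (L.tog : L d k).pos = 0 := rfl
@[simp] theorem h47_tog_rot : (L.tog : L d k).rot = 0 := rfl
theorem h47_tog_lamp (q : V d) : (L.tog : L d k).lamp q = if q = 0 then 1 else 0 := rfl

theorem h47_pt_mul (p p' : V d) (r r' : ZMod k) :
    (L.pt p r : L d k) * L.pt p' r' = L.pt (p + p') (r + r') := by
  apply L.ext' <;> simp

theorem h47_pt_inv (p : V d) (r : ZMod k) : (L.pt p r : L d k)⁻¹ = L.pt (-p) (-r) := by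
  apply L.ext' <;> simp

theorem h47_pt_one : (L.pt 0 0 : L d k) = 1 := by
  apply L.ext' <;> simp

/-- a subgroup containing the generators contains all points -/
theorem h47_pt_mem (H : Subgroup (L d k)) (hH : L.gens d k ⊆ H) (p : V d) (r : ZMod k) :
    L.pt p r ∈ H := by
  let A : AddSubgroup (V d) :=
    { carrier := {p | (L.pt p 0 : L d k) ∈ H}
      add_mem' := by
        intro a b ha hb
        have := H.mul_mem ha hb
        rw [h47_pt_mul, add_zero] at this
        exact this
      zero_mem' := by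
        show (L.pt 0 0 : L d k) ∈ H
        rw [h47_pt_one]; exact H.one_mem
      neg_mem' := by
        intro a ha
        have := H.inv_mem ha
        rw [h47_pt_inv, neg_zero] at this
        exact this }
  let C : AddSubgroup (ZMod k) :=
    { carrier := {r | (L.pt 0 r : L d k) ∈ H}
      add_mem' := by
        intro a b ha hb
        have := H.mul_mem ha hb
        rw [h47_pt_mul, add_zero] at this
        exact this
      zero_mem' := by
        show (L.pt 0 0 : L d k) ∈ H
        rw [h47_pt_one]; exact H.one_mem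
      neg_mem' := by
        intro a ha
        have := H.inv_mem ha
        rw [h47_pt_inv, neg_zero] at this
        exact this }
  have hA : ∀ p, p ∈ A := by
    intro p
    have h1 : p = ∑ i, (p i) • (Pi.single i 1 : V d) := by
      conv_lhs => rw [← Finset.univ_sum_single p]
      apply Finset.sum_congr rfl
      intro i _
      rw [← Pi.single_smul]
      simp
    rw [h1]
    apply AddSubgroup.sum_mem
    intro i _
    apply AddSubgroup.zsmul_mem
    show (L.pt (Pi.single i 1) 0 : L d k) ∈ H
    apply hH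
    left; right
    exact ⟨i, rfl⟩
  have hC : ∀ r, r ∈ C := by
    intro r
    obtain ⟨n, rfl⟩ := ZMod.intCast_surjective r
    have h1 : ((n : ℤ) : ZMod k) = n • (1 : ZMod k) := by simp
    rw [h1]
    apply AddSubgroup.zsmul_mem
    show (L.pt 0 1 : L d k) ∈ H
    apply hH
    right
    rfl
  have := H.mul_mem (hA p) (hC r)
  rw [h47_pt_mul, add_zero, zero_add] at this
  exact this

theorem h47_lamp_mem (H : Subgroup (L d k)) (hH : L.gens d k ⊆ H) (s : Finset (V d)) :
    ∀ a : L d k, (∀ q, a.lamp q ≠ 0 → q ∈ s) → a.pos = 0 → a.rot = 0 → a ∈ H := by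
  classical
  induction s using Finset.induction_on with
  | empty =>
    intro a h1 h2 h3
    have : a = 1 := by
      apply L.ext'
      · intro q
        by_contra h
        exact absurd (h1 q h) (by simp)
      · rw [h2]; rfl
      · rw [h3]; rfl
    rw [this]
    exact H.one_mem
  | insert q s hq ih =>
    intro a h1 h2 h3
    by_cases h : a.lamp q = 0
    · apply ih a _ h2 h3
      intro x hx
      have := h1 x hx
      rw [Finset.mem_insert] at this
      rcases this with rfl | h'
      · exact absurd h hx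
      · exact h'
    · set t : L d k := L.pt q 0 * L.tog * (L.pt q 0)⁻¹ with ht
      have htm : t ∈ H := by
        apply H.mul_mem (H.mul_mem (h47_pt_mem H hH q 0) _) (H.inv_mem (h47_pt_mem H hH q 0))
        apply hH
        left; left
        rfl
      have htl : ∀ x, t.lamp x = if x = q then 1 else 0 := by
        intro x
        rw [ht]
        simp [h47_tog_lamp, sub_eq_zero]
      have htp : t.pos = 0 := by rw [ht]; simp
      have htr : t.rot = 0 := by rw [ht]; simp
      have hmem : t * a ∈ H := by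
        apply ih
        · intro x hx
          rw [L.mul_lamp, htl, htp, sub_zero] at hx
          by_cases hxq : x = q
          · subst hxq
            rw [if_pos rfl] at hx
            exfalso
            apply hx
            have : a.lamp x = 1 := by
              have h5 : ∀ z : ZMod 2, z ≠ 0 → z = 1 := by decide
              exact h5 _ h
            rw [this]
            decide
          · rw [if_neg hxq, zero_add] at hx
            have := h1 x hx
            rw [Finset.mem_insert] at this
            exact this.resolve_left hxq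
        · rw [L.mul_pos, htp, h2, add_zero]
        · rw [L.mul_rot, htr, h3, add_zero]
      have : a = t⁻¹ * (t * a) := by simp
      rw [this]
      exact H.mul_mem (H.inv_mem htm) hmem

theorem h47_gen : Subgroup.closure (L.gens d k) = ⊤ := by
  rw [eq_top_iff]
  intro a _
  have hH : L.gens d k ⊆ (Subgroup.closure (L.gens d k) : Subgroup (L d k)) :=
    Subgroup.subset_closure
  let b : L d k := ⟨a.lamp, 0, 0, a.fin⟩
  have hb : b ∈ Subgroup.closure (L.gens d k) := by
    apply h47_lamp_mem _ hH a.fin.toFinset b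
    · intro q hq
      rw [Set.Finite.mem_toFinset]
      exact hq
    · rfl
    · rfl
  have : a = b * L.pt a.pos a.rot := by
    apply L.ext'
    · intro q; simp [b]
    · simp [b]
    · simp [b]
  rw [this]
  exact Subgroup.mul_mem _ hb (h47_pt_mem _ hH _ _)

theorem h47_letter {x : L d k} (hx : x ∈ L.gens d k ∨ x⁻¹ ∈ L.gens d k) :
    dI x.pos 0 ≤ 1 ∧ ∀ q, q ≠ 0 → x.lamp q = 0 := by
  have key : ∀ x ∈ L.gens d k, dI x.pos 0 ≤ 1 ∧ ∀ q, q ≠ 0 → x.lamp q = 0 := by
    rintro x ((hx | ⟨i, rfl⟩) | hx)
    · rw [Set.mem_singleton_iff] at hx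
      subst hx
      refine ⟨?_, ?_⟩
      · rw [h47_tog_pos, h47_dI_self]; omega
      · intro q hq
        rw [h47_tog_lamp, if_neg hq]
    · refine ⟨?_, fun q _ => rfl⟩
      rw [dI_le]
      intro j
      simp only [h47_pt_pos, Pi.zero_apply, sub_zero]
      by_cases h : j = i
      · subst h; simp
      · rw [Pi.single_eq_of_ne h]; simp
    · rw [Set.mem_singleton_iff] at hx
      subst hx
      refine ⟨?_, fun q _ => rfl⟩
      rw [h47_pt_pos, h47_dI_self]; omega
  rcases hx with hx | hx
  · exact key x hx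
  · -- the inverse
    rcases hx with (hx | ⟨i, hi⟩) | hx
    · rw [Set.mem_singleton_iff] at hx
      have : x = L.tog⁻¹ := by rw [← hx, inv_inv]
      subst this
      refine ⟨?_, ?_⟩
      · rw [L.inv_pos, h47_tog_pos, neg_zero, h47_dI_self]; omega
      · intro q hq
        rw [L.inv_lamp, h47_tog_pos, add_zero, h47_tog_lamp, if_neg hq]
    · have : x = (L.pt (Pi.single i 1) 0)⁻¹ := by rw [← inv_inv x, ← hi]
      subst this
      refine ⟨?_, fun q _ => rfl⟩
      rw [dI_le]
      intro j
      simp only [L.inv_pos, h47_pt_pos, Pi.neg_apply, Pi.zero_apply, sub_zero]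
      by_cases h : j = i
      · subst h; simp
      · rw [Pi.single_eq_of_ne h]; simp
    · rw [Set.mem_singleton_iff] at hx
      have : x = (L.pt 0 1)⁻¹ := by rw [← hx, inv_inv]
      subst this
      refine ⟨?_, fun q _ => rfl⟩
      rw [L.inv_pos, h47_pt_pos, neg_zero, h47_dI_self]; omega

theorem h47_walk (l : List (L d k)) (hl : ∀ x ∈ l, x ∈ L.gens d k ∨ x⁻¹ ∈ L.gens d k) :
    ∀ a : L d k, dI a.pos (a * l.prod).pos ≤ l.length ∧
      ∀ q, l.length < dI q a.pos → a.lamp q = (a * l.prod).lamp q := by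
  induction l with
  | nil =>
    intro a
    simp [h47_dI_self]
  | cons x l ih =>
    intro a
    obtain ⟨hx1, hx2⟩ := h47_letter (hl x (by simp))
    obtain ⟨h1, h2⟩ := ih (fun y hy => hl y (by simp [hy])) (a * x)
    have hstep : dI a.pos (a * x).pos ≤ 1 := by
      rw [L.mul_pos, h47_dI_comm]
      have := h47_dI_add x.pos 0 a.pos
      rw [zero_add, add_comm] at this
      rw [this]
      exact hx1
    rw [List.prod_cons, ← mul_assoc, List.length_cons]
    constructor
    · have := h47_dI_tri a.pos (a * x).pos (a * x * l.prod).pos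
      omega
    · intro q hq
      have h3 := h47_dI_tri q (a * x).pos a.pos
      have h4 := h47_dI_comm a.pos (a * x).pos
      rw [← h2 q (by omega), L.mul_lamp, hx2, add_zero]
      intro h5
      rw [sub_eq_zero] at h5
      rw [h5, h47_dI_self] at hq
      omega

theorem h47_near (K : ℕ) (a b : L d k) (h : nd (LN d k) a b ≤ K) :
    dI a.pos b.pos ≤ K ∧ ∀ q, K < dI q a.pos → a.lamp q = b.lamp q := by
  obtain ⟨l, h1, h2, h3⟩ := h47_wl_spec (h47_gen (d := d) (k := k)) (a⁻¹ * b)
  obtain ⟨h4, h5⟩ := h47_walk l h2 a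
  have h6 : a * l.prod = b := by rw [h3]; simp
  rw [h6] at h4 h5
  have h7 : l.length ≤ K := by rw [h1]; exact h
  exact ⟨h4.trans h7, fun q hq => h5 q (by omega)⟩

theorem h47_box_finite (r : ℕ) : {q : V d | dI q 0 ≤ r}.Finite := by
  apply (Set.finite_Icc (fun _ => -(r : ℤ) : V d) (fun _ => (r : ℤ))).subset
  intro q hq
  rw [Set.mem_ofPred_eq, dI_le] at hq
  constructor
  · intro i
    have := hq i
    simp only [Pi.zero_apply, sub_zero] at this
    show -(r : ℤ) ≤ q i
    omega
  · intro i
    have := hq i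
    simp only [Pi.zero_apply, sub_zero] at this
    show q i ≤ (r : ℤ)
    omega

theorem h47_bdd [NeZero k] (r : ℕ) : ∃ B : ℕ, ∀ a : L d k, dI a.pos 0 ≤ r →
    (∀ q, r < dI q 0 → a.lamp q = 0) → LN d k a ≤ B := by
  classical
  let T : Set (L d k) := {a | dI a.pos 0 ≤ r ∧ ∀ q, r < dI q 0 → a.lamp q = 0}
  have : Finite {q : V d | dI q 0 ≤ r} := (h47_box_finite r).to_subtype
  have hT : Finite T := by
    let f : T → ({q : V d | dI q 0 ≤ r} → ZMod 2) × {q : V d | dI q 0 ≤ r} × ZMod k :=
      fun a => (fun q => a.1.lamp q, ⟨a.1.pos, a.2.1⟩, a.1.rot)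
    apply Finite.of_injective f
    intro a b hab
    simp only [f, Prod.mk.injEq, Subtype.mk.injEq] at hab
    obtain ⟨h1, h2, h3⟩ := hab
    apply Subtype.ext
    apply L.ext' _ h2 h3
    intro q
    by_cases hq : dI q 0 ≤ r
    · exact congrFun h1 ⟨q, hq⟩
    · rw [a.2.2 q (by omega), b.2.2 q (by omega)]
  have hfin : (LN d k '' T).Finite := (Set.toFinite T).image _
  obtain ⟨B, hB⟩ := hfin.bddAbove
  refine ⟨B, fun a h1 h2 => hB ⟨a, ⟨h1, h2⟩, rfl⟩⟩

theorem h47_fin : (L.gens d k).Finite :=
  ((Set.finite_singleton _).union (Set.finite_range _)).union (Set.finite_singleton _)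

end gen

/-- module LP -/
theorem mod_LP : S_LP := by
  intro d k _
  exact ⟨h47_wl_norm h47_gen, h47_near, h47_bdd, h47_fin, h47_gen⟩

/-- module LCOL -/
theorem mod_LCOL : S_LP → S_ZCOL → S_LCOL := by
  intro hLP hZ d k _
  have F := hLP d k
  obtain ⟨ΔZ, hΔZ⟩ := hZ d
  choose B hB using F.bdd
  refine ⟨fun R => B (R + ΔZ R), ?_⟩
  intro R
  obtain ⟨col, hcol⟩ := hΔZ R
  refine ⟨fun a => col a.pos, ?_⟩
  intro x y _ hxy
  -- positions
  have hpos : ∀ y, ReflTransGen (fun a b : L d k => a ∈ Set.univ ∧ b ∈ Set.univ ∧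
      nd (LN d k) a b ≤ R ∧ col a.pos = col b.pos) x y → dI x.pos y.pos ≤ ΔZ R := by
    intro y hxy
    apply hcol x.pos y.pos (Set.mem_univ _)
    have := ReflTransGen.lift (r := fun a b : L d k => a ∈ Set.univ ∧ b ∈ Set.univ ∧
      nd (LN d k) a b ≤ R ∧ col a.pos = col b.pos)
      (p := fun a b : V d => a ∈ Set.univ ∧ b ∈ Set.univ ∧ dI a b ≤ R ∧ col a = col b)
      (fun a : L d k => a.pos) (fun a b hab => ⟨trivial, trivial, (F.near R a b hab.2.2.1).1,
        hab.2.2.2⟩) x y hxy
    exact this
  have hlamp : ∀ q, R + ΔZ R < dI q x.pos → x.lamp q = y.lamp q := by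
    intro q hq
    induction hxy with
    | refl => rfl
    | tail hab hbc ih =>
      rename_i b c
      rw [ih]
      apply (F.near R b c hbc.2.2.1).2
      have h1 := hpos b hab
      have h2 := h47_dI_tri q b.pos x.pos
      have h3 := h47_dI_comm x.pos b.pos
      omega
  show LN d k (x⁻¹ * y) ≤ B (R + ΔZ R)
  apply hB
  · rw [L.mul_pos, L.inv_pos]
    have h1 := hpos y hxy
    have h2 : -x.pos + y.pos = y.pos - x.pos := by abel
    rw [h2, h47_dI_sub, h47_dI_comm]
    omega
  · intro q hq
    rw [L.mul_lamp, L.inv_lamp, L.inv_pos, sub_neg_eq_add]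
    have h1 : R + ΔZ R < dI (q + x.pos) x.pos := by
      have := h47_dI_add q 0 x.pos
      rw [zero_add] at this
      rw [this]
      exact hq
    rw [hlamp _ h1]
    exact CharTwo.add_self_eq_zero _

/-- module LLK -/
theorem mod_LLK : S_LP → S_LLK := by
  intro hLP d k _ hd
  have F := hLP d k
  have hone : ∀ w : L d k, nd (LN d k) 1 w = LN d k w := by
    intro w; unfold nd; rw [inv_one, one_mul]
  let i0 : Fin d := ⟨0, hd⟩
  have hz : ∀ n : ℕ, dI (Pi.single i0 (n : ℤ) : V d) 0 = n := by
    intro n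
    apply le_antisymm
    · rw [dI_le]
      intro j
      by_cases h : j = i0
      · subst h; simp
      · rw [Pi.single_eq_of_ne h]; simp
    · have := h47_le_dI (Pi.single i0 (n : ℤ) : V d) 0 i0
      simpa using this
  have hfar : ∀ (T : ℕ) (w : L d k), T < dI w.pos 0 → T < LN d k w := by
    intro T w hw
    by_contra h
    have h1 := (F.near T 1 w (by rw [hone]; omega)).1
    rw [L.one_pos, h47_dI_comm] at h1
    omega
  have hfarl : ∀ (T : ℕ) (w : L d k) (q : V d), T < dI q 0 → w.lamp q ≠ 0 → T < LN d k w := by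
    intro T w q hq hw
    by_contra h
    have h1 := (F.near T 1 w (by rw [hone]; omega)).2 q (by rw [L.one_pos]; exact hq)
    rw [L.one_lamp] at h1
    exact hw h1.symm
  refine ⟨?_, ?_, ?_, ?_, ?_, ?_⟩
  · -- sep
    intro r
    obtain ⟨B, hB⟩ := F.bdd r
    refine ⟨B, ?_⟩
    intro a ha
    have : ∃ q0, a.lamp q0 ≠ 0 := by
      by_contra h
      push Not at h
      exact ha h
    obtain ⟨q0, hq0⟩ := this
    refine ⟨L.pt q0 0, fun q => rfl, ?_⟩
    intro m hm m' hm' hr
    have hm1 : ∀ q, m.lamp q = 0 := hm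
    have hm2 : ∀ q, m'.lamp q = 0 := hm'
    have h1 : (m⁻¹ * a * m').lamp (q0 - m.pos) ≠ 0 := by
      simp only [L.mul_lamp, L.inv_lamp, L.inv_pos, hm1, hm2, add_zero, zero_add]
      have : q0 - m.pos - -m.pos = q0 := by abel
      rw [this]
      exact hq0
    have h2 : dI (q0 - m.pos) 0 ≤ r := by
      by_contra h
      have := hfarl r _ _ (by omega) h1
      omega
    apply hB
    · rw [L.mul_pos, L.inv_pos, h47_pt_pos]
      have h3 : -q0 + m.pos = m.pos - q0 := by abel
      rw [h3, h47_dI_sub, h47_dI_comm, ← h47_dI_sub]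
      exact h2
    · intro q _
      simp [hm1]
  · -- unb
    intro r
    refine ⟨L.pt (Pi.single i0 ((r + 1 : ℕ) : ℤ)) 0, fun q => rfl, ?_⟩
    apply hfar
    rw [h47_pt_pos, hz]
    omega
  · -- tog not in M
    intro h
    have := h 0
    rw [h47_tog_lamp, if_pos rfl] at this
    exact absurd this (by decide)
  · -- norm of tog
    have := h47_wl_le (S := L.gens d k) (g := L.tog) [L.tog] (by
      intro x hx
      rw [List.mem_singleton] at hx
      subst hx
      left; left; left; rfl) (by simp)
    exact this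
  · -- gen
    rw [eq_top_iff, ← F.gen]
    apply Subgroup.closure_mono
    rintro x ((hx | ⟨i, rfl⟩) | hx)
    · left
      exact hx
    · right
      intro q; rfl
    · right
      rw [Set.mem_singleton_iff] at hx
      subst hx
      intro q; rfl
  · -- comm
    intro T
    set z : V d := Pi.single i0 ((T + 1 : ℕ) : ℤ) with hzd
    have hz0 : T < dI z 0 := by rw [hzd, hz]; omega
    refine ⟨L.pt z 0, fun q => rfl, ?_, ?_, ?_, L.pt z 0, fun q => rfl, ?_⟩
    · exact hfar _ _ hz0
    · apply hfarl T _ z hz0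
      simp [h47_tog_lamp]
    · apply hfar
      simpa using hz0
    · apply L.ext'
      · intro q
        simp only [L.mul_lamp, L.mul_pos, L.inv_lamp, L.inv_pos, h47_pt_lamp, h47_pt_pos,
          h47_tog_pos, zero_add, add_zero, add_neg_cancel, sub_zero]
        rw [add_comm (L.tog.lamp (q - z)) (L.tog.lamp q), add_assoc, CharTwo.add_self_eq_zero,
          add_zero]
      · simp
      · simp

end CQ
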